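import Pool.Agent.H964.CW.Stm3

/-!
# Project CW of helper964, task VI: induction over the degrees of badness
-/

set_option autoImplicit false

open MeasureTheory ProbabilityTheory Filter Finset

namespace Pool.Agent.H286.CW

open Pool.Agent.H964.QC Pool.Agent.H964.CW

section basic

variable {Ω : Type} [MeasurableSpace Ω] {P : Measure Ω}

theorem sq_mono {f : Ω → ℝ} {a b : ℝ} (hf : Sq P f a) (h : a ≤ b) : Sq P f b :=
  ⟨hf.1, hf.2.trans h⟩

theorem sq_add {f g : Ω → ℝ} {a b : ℝ} (hf : Sq P f a) (hg : Sq P g b) :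
    Sq P (fun ω => f ω + g ω) (2 * a + 2 * b) := by
  refine ⟨hf.1.add hg.1, ?_⟩
  have i1 := hf.1.integrable_sq
  have i2 := hg.1.integrable_sq
  have i3 : Integrable (fun ω => (f ω + g ω) ^ 2) P := (hf.1.add hg.1).integrable_sq
  have i4 : Integrable (fun ω => 2 * f ω ^ 2 + 2 * g ω ^ 2) P :=
    (i1.const_mul 2).add (i2.const_mul 2)
  calc ∫ ω, (f ω + g ω) ^ 2 ∂P ≤ ∫ ω, (2 * f ω ^ 2 + 2 * g ω ^ 2) ∂P := by
        apply integral_mono i3 i4
        intro ω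
        show (f ω + g ω) ^ 2 ≤ 2 * f ω ^ 2 + 2 * g ω ^ 2
        nlinarith [sq_nonneg (f ω - g ω)]
    _ = 2 * ∫ ω, f ω ^ 2 ∂P + 2 * ∫ ω, g ω ^ 2 ∂P := by
        rw [integral_add (i1.const_mul 2) (i2.const_mul 2), integral_const_mul,
          integral_const_mul]
    _ ≤ 2 * a + 2 * b := by linarith [hf.2, hg.2]

theorem RR_succ (n : ℕ) : RR (n + 1) = RR n + rr (n + 1) :=
  Finset.sum_Icc_succ_top (by omega) _

theorem RR_mono (h : S_RR) : Monotone RR :=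
  monotone_nat_of_le_succ fun n => by
    rw [RR_succ]
    linarith [h.1 (n + 1)]

theorem RR_nonneg (h : S_RR) (n : ℕ) : 0 ≤ RR n := Finset.sum_nonneg fun i _ => (h.1 i).le

theorem rr_le_one (h : S_RR) (n : ℕ) : rr n ≤ 1 := by
  refine (h.2.1 n).trans ?_
  rw [div_le_one (by positivity)]
  linarith [(Nat.cast_nonneg n : (0 : ℝ) ≤ n)]

theorem good_mono {V : Type} [Fintype V] [DecidableEq V] {C0 : ℝ} {N0 : ℕ} {W : Wlk V C0 N0}
    {t : ℕ} {B B' : ℝ} {w : V → ℝ} (hB : B ≤ B') (h : Good W t B w) : Good W t B' w where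
  nonneg := h.nonneg
  sum := h.sum
  cls := h.cls
  ov := fun n h1 h2 => (h.ov n h1 h2).trans (div_le_div_of_nonneg_right hB (Real.sqrt_nonneg _))
  spread := h.spread.trans (mul_le_mul_of_nonneg_right hB (Nat.cast_nonneg t))

theorem noiseI_shift {V : Type} [Fintype V] [DecidableEq V] {s2 κ : ℝ} {η : ℕ → V → Ω → ℝ}
    [IsProbabilityMeasure P] (hI : S_IND) (h : NoiseI P s2 κ η) (j : ℕ) :
    NoiseI P s2 κ (fun n v => η (j + n) v) :=
  ⟨(hI V Ω P s2 κ η h.1 j).2.2, fun n v => h.2 (j + n) v⟩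

/-- the first `T` such that the overlap of the block is at least `x` -/
theorem exists_block (h : S_RR) (t N : ℕ) (x : ℝ) (hx : 0 < x) (htN : t ≤ N)
    (hN : x ≤ RR N - RR t) : ∃ T : ℕ, 1 ≤ T ∧ t + T ≤ N ∧ x ≤ RR (t + T) - RR t ∧
      RR (t + T) - RR t ≤ x + 1 := by
  classical
  have hex : ∃ T : ℕ, x ≤ RR (t + T) - RR t := ⟨N - t, by rwa [Nat.add_sub_cancel' htN]⟩
  set T := Nat.find hex with hT
  have h1 : x ≤ RR (t + T) - RR t := Nat.find_spec hex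
  have h2 : T ≤ N - t := Nat.find_min' hex (by rwa [Nat.add_sub_cancel' htN])
  have h3 : 1 ≤ T := by
    by_contra h0
    have h0' : T = 0 := by omega
    rw [h0', add_zero, sub_self] at h1
    linarith
  refine ⟨T, h3, by omega, h1, ?_⟩
  obtain ⟨S, hS⟩ : ∃ S, T = S + 1 := ⟨T - 1, by omega⟩
  have h4 : ¬ x ≤ RR (t + S) - RR t := Nat.find_min hex (by omega)
  rw [hS, ← add_assoc, RR_succ]
  linarith [rr_le_one h (t + S + 1)]

end basic

section rpow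

theorem two_bound {L : ℝ} (hL : 16 ≤ L) {c : ℝ} (hc : c ≤ 1 / 2) : L ^ c + 1 ≤ L / 2 := by
  have h1 : L ^ c ≤ L ^ (1 / 2 : ℝ) := Real.rpow_le_rpow_of_exponent_le (by linarith) hc
  rw [← Real.sqrt_eq_rpow] at h1
  have h2 : Real.sqrt L * Real.sqrt L = L := Real.mul_self_sqrt (by linarith)
  have h3 : 4 ≤ Real.sqrt L := by
    apply Real.le_sqrt_of_sq_le
    linarith
  nlinarith

theorem four_bound {L : ℝ} (hL : 4 ^ 40 ≤ L) {c : ℝ} (hc : c ≤ 1 / 16000) :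
    4 * L ^ c ≤ L ^ (1 / 20 : ℝ) := by
  have hL1 : 1 ≤ L := le_trans (by norm_num) hL
  have h1 : L ^ c ≤ L ^ (1 / 40 : ℝ) :=
    Real.rpow_le_rpow_of_exponent_le hL1 (by linarith)
  have h2 : (4 : ℝ) ≤ L ^ (1 / 40 : ℝ) := by
    calc (4 : ℝ) = ((4 : ℝ) ^ (40 : ℝ)) ^ (1 / 40 : ℝ) := by
          rw [← Real.rpow_mul (by norm_num)]
          norm_num
      _ ≤ L ^ (1 / 40 : ℝ) := by
          apply Real.rpow_le_rpow (by positivity) _ (by norm_num)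
          have : ((4 : ℝ) ^ (40 : ℝ)) = 4 ^ 40 := by
            rw [← Real.rpow_natCast]
            norm_num
          rw [this]
          exact hL
  have h3 : L ^ (1 / 20 : ℝ) = L ^ (1 / 40 : ℝ) * L ^ (1 / 40 : ℝ) := by
    rw [← Real.rpow_add (by linarith)]
    norm_num
  rw [h3]
  have h4 : 0 ≤ L ^ (1 / 40 : ℝ) := by positivity
  nlinarith

theorem pow_ratio {L L' a : ℝ} (hL : 0 < L) (h1 : L / 2 ≤ L') (h2 : L' ≤ L) (ha : -4 ≤ a) :
    L' ^ a ≤ 16 * L ^ a := by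
  have hLp : 0 < L ^ a := Real.rpow_pos_of_pos hL a
  rcases le_total 0 a with h0 | h0
  · have := Real.rpow_le_rpow (by linarith) h2 h0
    linarith
  · have h3 : L' ^ a ≤ (L / 2) ^ a :=
      Real.rpow_le_rpow_of_nonpos (by linarith) h1 h0
    have h4 : (L / 2) ^ a = L ^ a * (2 : ℝ) ^ (-a) := by
      rw [Real.div_rpow hL.le (by norm_num), Real.rpow_neg (by norm_num), div_eq_mul_inv]
    have h5 : (2 : ℝ) ^ (-a) ≤ 16 := by
      calc (2 : ℝ) ^ (-a) ≤ (2 : ℝ) ^ (4 : ℝ) :=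
            Real.rpow_le_rpow_of_exponent_le (by norm_num) (by linarith)
        _ = 16 := by norm_num
    rw [h4] at h3
    nlinarith

end rpow

/-- the claim for the tier with the exponent `c`, with the error `L ^ a` -/
def Claim (C0 κ θ1 c a : ℝ) : Prop := ∃ L0 : ℝ, 1 ≤ L0 ∧ ∀ L1 : ℝ, L0 ≤ L1 →
  ∃ C : ℝ, 1 ≤ C ∧
  ∀ (N0 M : ℕ) [NeZero M] (W : Wlk (ZMod M × ZMod M) C0 N0), IsTor W →
  ∀ (Ω : Type) [MeasurableSpace Ω] (P : Measure Ω) [IsProbabilityMeasure P] (s2 : ℝ)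
    (η : ℕ → ZMod M × ZMod M → Ω → ℝ) (N t0 : ℕ) (A : ℝ), 0 < s2 → s2 ≤ 1 / C →
  NoiseI P s2 κ η → (1 / s2) ^ (1 / 20 : ℝ) ≤ RR t0 → 4 * N ≤ N0 → -θ1 ≤ 1 / s2 - RR N → 1 ≤ A →
  (∀ (t : ℕ) (w : ZMod M × ZMod M → ℝ) (L : ℝ), t0 < t → t ≤ N → L = 1 / s2 - RR t → L1 ≤ L →
    Good W t (Real.exp (L ^ e0)) w →
      Sq P (fun ω => lgZ W (N - t) w (cfg η ω)) (A * (1 + Real.log L) ^ 2)) →
  ∀ (t : ℕ) (w : ZMod M × ZMod M → ℝ) (L : ℝ), t0 ≤ t → t ≤ N → L = 1 / s2 - RR t → L1 ≤ L →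
    Good W t (Real.exp (L ^ c)) w →
    Sq P (fun ω => lgZ W (N - t) w (cfg η ω)) (C * (A * (1 + Real.log L) ^ 2 + L ^ a))

/-- the direct estimate -/
theorem de (hRR : S_RR) (hDE : P_DE) {C0 κ θ1 : ℝ} (h0 : 1 ≤ C0) (hκ : 0 ≤ κ) (hθ : 0 ≤ θ1) :
    ∃ C : ℝ, 1 ≤ C ∧ ∀ (N0 M : ℕ) [NeZero M] (W : Wlk (ZMod M × ZMod M) C0 N0), IsTor W →
  ∀ (Ω : Type) [MeasurableSpace Ω] (P : Measure Ω) [IsProbabilityMeasure P] (s2 : ℝ)
    (η : ℕ → ZMod M × ZMod M → Ω → ℝ) (N t0 : ℕ), 0 < s2 → s2 ≤ 1 / C →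
  NoiseI P s2 κ η → (1 / s2) ^ (1 / 20 : ℝ) ≤ RR t0 → 4 * N ≤ N0 → -θ1 ≤ 1 / s2 - RR N →
  ∀ (t : ℕ) (w : ZMod M × ZMod M → ℝ) (L c : ℝ), c ≤ 1 / 16000 → t0 ≤ t → t ≤ N →
    L = 1 / s2 - RR t → 4 ^ 40 ≤ L → Good W t (Real.exp (L ^ c)) w →
    Sq P (fun ω => lgZ W (N - t) w (cfg η ω)) (C * L ^ 17) := by
  obtain ⟨C, hC, hall⟩ := hDE C0 κ θ1 h0 hκ hθ
  have h3 : (1 : ℝ) ≤ 3 ^ 17 := by norm_num
  refine ⟨C * 3 ^ 17, by nlinarith, ?_⟩
  intro N0 M _ W hW Ω _ P _ s2 η N t0 hs2 hs2' hn ht0 hN hθN t w L c hc ht htN hL hLb hgood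
  have hCpos : 0 < C := by linarith
  have hs2'' : s2 ≤ 1 / C := hs2'.trans (one_div_le_one_div_of_le hCpos (by nlinarith))
  have hL1 : 1 ≤ L := le_trans (by norm_num) hLb
  have hRt : (1 / s2) ^ (1 / 20 : ℝ) ≤ RR t := ht0.trans (RR_mono hRR ht)
  have hLs : L ≤ 1 / s2 := by
    rw [hL]
    linarith [RR_nonneg hRR t]
  have h4 := four_bound hLb hc
  have h5 : L ^ (1 / 20 : ℝ) ≤ (1 / s2) ^ (1 / 20 : ℝ) :=
    Real.rpow_le_rpow (by linarith) hLs (by norm_num)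
  have hb : L ^ c ≤ RR t / 4 := by linarith
  have hb0 : 0 ≤ L ^ c := by positivity
  have hbL : L ^ c ≤ L := by
    calc L ^ c ≤ L ^ (1 : ℝ) := Real.rpow_le_rpow_of_exponent_le hL1 (by linarith)
      _ = L := Real.rpow_one L
  have key := hall N0 M W hW Ω P s2 η w t N (L ^ c) hs2 hs2'' hn hRt htN (by omega) hθN hb0 hb
    hgood
  refine sq_mono key ?_
  rw [← hL, abs_of_pos (by linarith : 0 < L), mul_assoc, ← mul_pow]
  apply mul_le_mul_of_nonneg_left _ hCpos.le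
  apply pow_le_pow_left₀ (by positivity)
  linarith

theorem claim_base (hRR : S_RR) (hDE : P_DE) {C0 κ θ1 : ℝ} (h0 : 1 ≤ C0) (hκ : 0 ≤ κ)
    (hθ : 0 ≤ θ1) : Claim C0 κ θ1 (1 / 16000) 17 := by
  obtain ⟨C, hC, hall⟩ := de hRR hDE h0 hκ hθ
  refine ⟨4 ^ 40, by norm_num, fun L1 hL1 => ⟨C, hC, ?_⟩⟩
  intro N0 M _ W hW Ω _ P _ s2 η N t0 A hs2 hs2' hn ht0 hN hθN hA _ t w L ht htN hL hLb hgood
  refine sq_mono (hall N0 M W hW Ω P s2 η N t0 hs2 hs2' hn ht0 hN hθN t w L (1 / 16000) le_rfl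
    ht htN hL (hL1.trans hLb) hgood) ?_
  apply mul_le_mul_of_nonneg_left _ (by linarith)
  have : L ^ (17 : ℝ) = L ^ 17 := by
    rw [← Real.rpow_natCast]
    norm_num
  rw [this]
  have : 0 ≤ A * (1 + Real.log L) ^ 2 := by positivity
  linarith

theorem lgX_eq (hDUAL : S_DUAL) {V : Type} [Fintype V] [DecidableEq V] {C0 : ℝ} {N0 : ℕ}
    (W : Wlk V C0 N0) (T : ℕ) (w : V → ℝ) (x : ℕ → V → ℝ) (hw : ∑ z, w z = 1) :
    lgX W T w x = lgZ W T w x := by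
  unfold lgX lgZ
  rw [(hDUAL V C0 N0 W x w 0 T).2.2.1, hw]
  congr 1
  ring

theorem lgZ_meas (hMEAS : S_MEAS) {V : Type} [Fintype V] [DecidableEq V] {C0 : ℝ} {N0 : ℕ}
    (W : Wlk V C0 N0) {Ω : Type} [MeasurableSpace Ω] (P : Measure Ω) [IsProbabilityMeasure P]
    {s2 κ : ℝ} {η : ℕ → V → Ω → ℝ} (hn : Noise P s2 κ η) (j : ℕ) :
    Measurable (fun p : (V → ℝ) × (ℕ → V → ℝ) => lgZ W j p.1 p.2) ∧
    ∀ (w' : V → ℝ) (x : ℕ → V → ℝ), lgZ W j w' x = lgZ W j w' (cut j x) := by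
  obtain ⟨_, _, h1, h2, _⟩ := hMEAS V C0 N0 W Ω P s2 κ η hn
  constructor
  · unfold lgZ
    apply Real.measurable_log.comp
    apply Finset.measurable_sum
    intro y _
    exact ((measurable_pi_apply y).comp measurable_fst).mul ((h2 j y).comp measurable_snd)
  · intro w' x
    unfold lgZ
    rw [h1 x j]

theorem e0_pos : 0 < e0 := by
  unfold e0
  positivity

theorem indic_split {V : Type} {G1 G2 : Set V} (h : G1 ⊆ G2) (x : V) (f : V → ℝ) :
    f x = G1.indicator f x + ((G2 \ G1).indicator f x + {y | ¬ y ∈ G2}.indicator f x) := by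
  classical
  by_cases q1 : x ∈ G1
  · rw [Set.indicator_of_mem q1, Set.indicator_of_notMem (fun h' => h'.2 q1),
      Set.indicator_of_notMem (fun h' : x ∈ {y | ¬ y ∈ G2} => h' (h q1))]
    ring
  · by_cases q2 : x ∈ G2
    · have q3 : x ∈ G2 \ G1 := ⟨q2, q1⟩
      rw [Set.indicator_of_notMem q1, Set.indicator_of_mem q3,
        Set.indicator_of_notMem (fun h' : x ∈ {y | ¬ y ∈ G2} => h' q2)]
      ring
    · have q3 : x ∈ {y | ¬ y ∈ G2} := q2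
      rw [Set.indicator_of_notMem q1, Set.indicator_of_notMem (fun h' => q2 h'.1),
        Set.indicator_of_mem q3]
      ring

theorem claim_step (hMK : S_MK) (hGM : S_GM) (hMEAS : S_MEAS) (hIND : S_IND) (hDUAL : S_DUAL)
    (hRR : S_RR) (hMBK : P_MBK) (hDE : P_DE) (hWLD : P_WLD) {C0 κ θ1 c a : ℝ} (h0 : 1 ≤ C0)
    (hκ : 0 ≤ κ) (hθ : 0 ≤ θ1) (hc1 : 20 * e0 ≤ c) (hc2 : c ≤ 1 / 320000) (ha : -4 ≤ a + 3 / 4)
    (hcl : Claim C0 κ θ1 (20 * c) (a + 3 / 4)) : Claim C0 κ θ1 c a := by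
  have he0 := e0_pos
  obtain ⟨LA, hLA, hA⟩ := hcl
  obtain ⟨LM, hLM, hM⟩ := hMBK C0 κ c h0 hκ hc1 (by linarith)
  obtain ⟨LW, hLW, hWl⟩ := hWLD C0 κ θ1 c h0 hκ hθ (by linarith) (by linarith)
  obtain ⟨CD, hCD, hD⟩ := de hRR hDE h0 hκ hθ
  refine ⟨max (max LA LM) (max LW (4 ^ 40)),
    le_trans hLA (le_trans (le_max_left _ _) (le_max_left _ _)), fun L1 hL1 => ?_⟩
  have b1 : LA ≤ L1 := le_trans (le_trans (le_max_left _ _) (le_max_left _ _)) hL1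
  have b2 : LM ≤ L1 := le_trans (le_trans (le_max_right _ _) (le_max_left _ _)) hL1
  have b3 : LW ≤ L1 := le_trans (le_trans (le_max_left _ _) (le_max_right _ _)) hL1
  have b4 : (4 : ℝ) ^ 40 ≤ L1 :=
    le_trans (le_trans (le_max_right _ _) (le_max_right _ _)) hL1
  have b5 : (16 : ℝ) ≤ L1 := le_trans (by norm_num) b4
  obtain ⟨CA, hCA, hA'⟩ := hA L1 b1
  have hp17 : (1 : ℝ) ≤ (2 * L1 + 2) ^ 17 := one_le_pow₀ (by linarith)
  have hq17 : CD ≤ CD * (2 * L1 + 2) ^ 17 := le_mul_of_one_le_right (by linarith) hp17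
  refine ⟨14 + 128 * CA + CD * (2 * L1 + 2) ^ 17, by linarith, ?_⟩
  set C := 14 + 128 * CA + CD * (2 * L1 + 2) ^ 17 with hC
  intro N0 M _ W hW Ω _ P _ s2 η N t0 A hs2 hs2' hn ht0 hN hθN hA1 H t w L ht htN hL hLb hgood
  have hsA : s2 ≤ 1 / CA := hs2'.trans (one_div_le_one_div_of_le (by linarith) (by linarith))
  have hsD : s2 ≤ 1 / CD := hs2'.trans (one_div_le_one_div_of_le (by linarith) (by linarith))
  have hL1' : 1 ≤ L := by linarith
  have hlog : 0 ≤ Real.log L := Real.log_nonneg hL1'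
  set X := A * (1 + Real.log L) ^ 2 with hX
  have hX1 : 1 ≤ X := by
    have h1 : (1 : ℝ) ≤ (1 + Real.log L) ^ 2 := one_le_pow₀ (by linarith)
    calc (1 : ℝ) = 1 * 1 := by norm_num
      _ ≤ A * (1 + Real.log L) ^ 2 := mul_le_mul hA1 h1 (by norm_num) (by linarith)
  have hLa : 0 < L ^ a := Real.rpow_pos_of_pos (by linarith) a
  have hRt : (1 / s2) ^ (1 / 20 : ℝ) ≤ RR t := ht0.trans (RR_mono hRR ht)
  by_cases hsmall : L ≤ 2 * L1 + 2
  · refine sq_mono (hD N0 M W hW Ω P s2 η N t0 hs2 hsD hn ht0 hN hθN t w L c (by linarith) ht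
      htN hL (b4.trans hLb) hgood) ?_
    have e1 : L ^ 17 ≤ (2 * L1 + 2) ^ 17 := pow_le_pow_left₀ (by linarith) hsmall 17
    have e2 : CD * L ^ 17 ≤ CD * (2 * L1 + 2) ^ 17 :=
      mul_le_mul_of_nonneg_left e1 (by linarith)
    have e3 : C * 1 ≤ C * (X + L ^ a) := mul_le_mul_of_nonneg_left (by linarith) (by linarith)
    linarith
  push Not at hsmall
  have hcpos : 0 < L ^ c := Real.rpow_pos_of_pos (by linarith) c
  have h2b : L ^ c + 1 ≤ L / 2 := two_bound (by linarith) (by linarith)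
  have hone : (1 : ℝ) ≤ C * (X + L ^ a) := by
    have : C * 1 ≤ C * (X + L ^ a) := mul_le_mul_of_nonneg_left (by linarith) (by linarith)
    linarith
  by_cases hB : RR N - RR t < L ^ c
  · have e1 := (hM N0 M W hW Ω P s2 η w t (N - t) L (1 / s2 - RR (t + (N - t))) hs2 hn hL rfl
      (by rw [Nat.add_sub_cancel' htN]; linarith) hRt
      (by rw [Nat.add_sub_cancel' htN]; linarith) (by omega) hgood).1
    have e2 : (fun ω => lgX W (N - t) w (cfg η ω)) = fun ω => lgZ W (N - t) w (cfg η ω) := by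
      funext ω
      exact lgX_eq hDUAL W (N - t) w (cfg η ω) hgood.sum
    rw [e2] at e1
    exact sq_mono e1 hone
  push Not at hB
  obtain ⟨T, hT1, hTN, hTx, hTx'⟩ := exists_block hRR t N (L ^ c) hcpos htN hB
  obtain ⟨L', hL'⟩ : ∃ L', L' = 1 / s2 - RR (t + T) := ⟨_, rfl⟩
  have hLL : L / 2 ≤ L' := by linarith
  have hLL' : L' ≤ L := by linarith
  have hL1L : L1 ≤ L' := by linarith
  have hL'1 : 1 ≤ L' := by linarith
  have hlog' : 0 ≤ Real.log L' := Real.log_nonneg hL'1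
  set j := N - (t + T) with hj
  have hjT : N - t = j + T := by omega
  have hn' := noiseI_shift hIND hn j
  obtain ⟨m1, m2⟩ := hM N0 M W hW Ω P s2 (fun n v => η (j + n) v) w t T L L' hs2 hn' hL hL'
    (by linarith) hRt hTx' (by omega) hgood
  have m3 := m2 hTx
  obtain ⟨k1, k2⟩ := hMK (ZMod M × ZMod M) C0 N0 W Ω P s2 κ η w j T hn.1 hgood.nonneg hgood.sum
  obtain ⟨hFm, hFc⟩ := lgZ_meas hMEAS W P hn.1 j
  set G1 : Set (ZMod M × ZMod M → ℝ) := {w' | Good W (t + T) (Real.exp (L' ^ e0)) w'} with hG1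
  set G2 : Set (ZMod M × ZMod M → ℝ) := {w' | Good W (t + T) (Real.exp (L' ^ (20 * c))) w'}
    with hG2
  have hG1m : MeasurableSet G1 := hGM (ZMod M × ZMod M) C0 N0 W (t + T) (Real.exp (L' ^ e0))
  have hG2m : MeasurableSet G2 :=
    hGM (ZMod M × ZMod M) C0 N0 W (t + T) (Real.exp (L' ^ (20 * c)))
  have hG12 : G1 ⊆ G2 := fun w' hw' => good_mono (Real.exp_le_exp.2
    (Real.rpow_le_rpow_of_exponent_le hL'1 (by linarith))) hw'
  -- the good part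
  have hA0 : 0 ≤ A * (1 + Real.log L') ^ 2 := by positivity
  have hAX : A * (1 + Real.log L') ^ 2 ≤ X := by
    apply mul_le_mul_of_nonneg_left _ (by linarith)
    apply pow_le_pow_left₀ (by linarith)
    linarith [Real.log_le_log (by linarith) hLL']
  have f1 := (k2 G1 (fun w' x => lgZ W j w' x) (A * (1 + Real.log L') ^ 2) 0 hG1m hFm hFc hA0
    (fun w' hw' _ _ _ => H (t + T) w' L' (by omega) hTN hL' hL1L hw')).1
  have hLa' : 0 < L' ^ (a + 3 / 4) := Real.rpow_pos_of_pos (by linarith) _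
  have f2 := (k2 (G2 \ G1) (fun w' x => lgZ W j w' x)
    (CA * (A * (1 + Real.log L') ^ 2 + L' ^ (a + 3 / 4))) 0 (hG2m.diff hG1m) hFm hFc
    (by positivity)
    (fun w' hw' _ _ _ => hA' N0 M W hW Ω P s2 η N t0 A hs2 hsA hn ht0 hN hθN hA1 H (t + T) w' L'
      (by omega) hTN hL' hL1L hw'.1)).1
  have f3 := hWl N0 M W hW Ω P s2 η w t T N L L' hs2 hn hL hL' (by linarith) hRt
    (by linarith [Real.rpow_pos_of_pos (by linarith : 0 < L) (2 * e0)]) hTx hTN hN hθN hgood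
  rw [← hj] at f3
  -- sum
  have hsum := sq_add m1 (sq_add f1 (sq_add f2 f3))
  have hfun : (fun ω => lgZ W (N - t) w (cfg η ω)) = fun ω => lgX W T w (cfg (fun n v => η (j + n) v) ω) +
      (G1.indicator (fun w' => lgZ W j w' (cfg η ω)) (nw W T w (sft j (cfg η ω))) +
      ((G2 \ G1).indicator (fun w' => lgZ W j w' (cfg η ω)) (nw W T w (sft j (cfg η ω))) +
      {w' | ¬ Good W (t + T) (Real.exp (L' ^ (20 * c))) w'}.indicator
        (fun w' => lgZ W j w' (cfg η ω)) (nw W T w (sft j (cfg η ω))))) := by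
    funext ω
    rw [hjT, (k1 (cfg η ω) fun n v => hn.1.gt n v ω).2.2.2]
    have e1 : cfg (fun n v => η (j + n) v) ω = sft j (cfg η ω) := rfl
    rw [e1]
    congr 1
    set w' := nw W T w (sft j (cfg η ω)) with hw'
    exact indic_split hG12 w' (fun w' => lgZ W j w' (cfg η ω))
  rw [hfun]
  refine sq_mono hsum ?_
  -- numbers
  have n1 : A * (1 + Real.log L') ^ 2 * P.real {ω | nw W T w (sft j (cfg η ω)) ∈ G1} ≤ X := by
    calc A * (1 + Real.log L') ^ 2 * P.real {ω | nw W T w (sft j (cfg η ω)) ∈ G1}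
        ≤ A * (1 + Real.log L') ^ 2 * 1 :=
          mul_le_mul_of_nonneg_left measureReal_le_one hA0
      _ ≤ X := by linarith
  have n2 : P.real {ω | nw W T w (sft j (cfg η ω)) ∈ G2 \ G1} ≤ L ^ (-(3 / 4) : ℝ) := by
    refine le_trans (measureReal_mono (fun ω hω => ?_)) m3
    exact hω.2
  have n3 : L' ^ (a + 3 / 4) ≤ 16 * L ^ (a + 3 / 4) := pow_ratio (by linarith) hLL hLL' ha
  have n4 : L ^ (a + 3 / 4) * L ^ (-(3 / 4) : ℝ) = L ^ a := by
    rw [← Real.rpow_add (by linarith)]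
    congr 1
    ring
  have n5 : L ^ (-(3 / 4) : ℝ) ≤ 1 := Real.rpow_le_one_of_one_le_of_nonpos hL1' (by norm_num)
  have n5' : 0 < L ^ (-(3 / 4) : ℝ) := Real.rpow_pos_of_pos (by linarith) _
  have n6 : L ^ (-2 : ℝ) ≤ 1 := Real.rpow_le_one_of_one_le_of_nonpos hL1' (by norm_num)
  have n7 : CA * (A * (1 + Real.log L') ^ 2 + L' ^ (a + 3 / 4)) *
      P.real {ω | nw W T w (sft j (cfg η ω)) ∈ G2 \ G1} ≤ CA * (X + 16 * L ^ a) := by
    calc CA * (A * (1 + Real.log L') ^ 2 + L' ^ (a + 3 / 4)) *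
      P.real {ω | nw W T w (sft j (cfg η ω)) ∈ G2 \ G1}
        ≤ CA * (A * (1 + Real.log L') ^ 2 + L' ^ (a + 3 / 4)) * L ^ (-(3 / 4) : ℝ) :=
          mul_le_mul_of_nonneg_left n2 (by positivity)
      _ ≤ CA * (X + 16 * L ^ (a + 3 / 4)) * L ^ (-(3 / 4) : ℝ) := by
          apply mul_le_mul_of_nonneg_right _ n5'.le
          apply mul_le_mul_of_nonneg_left _ (by linarith)
          linarith
      _ = CA * (X * L ^ (-(3 / 4) : ℝ) + 16 * (L ^ (a + 3 / 4) * L ^ (-(3 / 4) : ℝ))) := by ring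
      _ ≤ CA * (X + 16 * L ^ a) := by
          rw [n4]
          apply mul_le_mul_of_nonneg_left _ (by linarith)
          have : X * L ^ (-(3 / 4) : ℝ) ≤ X * 1 := mul_le_mul_of_nonneg_left n5 (by linarith)
          linarith
  have hCge : 14 + 128 * CA ≤ C := by
    rw [hC]
    linarith
  have hfin : (14 + 128 * CA) * (X + L ^ a) ≤ C * (X + L ^ a) :=
    mul_le_mul_of_nonneg_right hCge (by linarith)
  have hCAX : 0 ≤ CA * X := by positivity
  have hCAL : 0 ≤ CA * L ^ a := by positivity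
  have x1 : (14 + 128 * CA) * (X + L ^ a) = 14 * X + 14 * L ^ a + 128 * (CA * X) +
      128 * (CA * L ^ a) := by ring
  have x2 : CA * (X + 16 * L ^ a) = CA * X + 16 * (CA * L ^ a) := by ring
  rw [x1] at hfin
  rw [x2] at n7
  linarith

theorem claim_all (hMK : S_MK) (hGM : S_GM) (hMEAS : S_MEAS) (hIND : S_IND) (hDUAL : S_DUAL)
    (hRR : S_RR) (hMBK : P_MBK) (hDE : P_DE) (hWLD : P_WLD) {C0 κ θ1 : ℝ} (h0 : 1 ≤ C0)
    (hκ : 0 ≤ κ) (hθ : 0 ≤ θ1) (k : ℕ) (hk : k ≤ 27) :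
    Claim C0 κ θ1 (1 / 16000 * (1 / 20) ^ k) (17 - 3 / 4 * k) := by
  induction k with
  | zero =>
    have h := claim_base hRR hDE (C0 := C0) (κ := κ) (θ1 := θ1) h0 hκ hθ
    have e1 : (1 / 16000 * (1 / 20) ^ 0 : ℝ) = 1 / 16000 := by norm_num
    have e2 : (17 - 3 / 4 * ((0 : ℕ) : ℝ)) = 17 := by norm_num
    rw [e1, e2]
    exact h
  | succ k ih =>
    have h := ih (by omega)
    have e1 : (1 / 16000 * (1 / 20) ^ k : ℝ) = 20 * (1 / 16000 * (1 / 20) ^ (k + 1)) := by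
      rw [pow_succ]
      ring
    have e2 : (17 - 3 / 4 * (k : ℝ)) = (17 - 3 / 4 * ((k + 1 : ℕ) : ℝ)) + 3 / 4 := by
      push_cast
      ring
    rw [e1, e2] at h
    refine claim_step hMK hGM hMEAS hIND hDUAL hRR hMBK hDE hWLD h0 hκ hθ ?_ ?_ ?_ h
    · have e3 : ((1 / 20 : ℝ)) ^ 27 ≤ (1 / 20) ^ (k + 1) :=
        pow_le_pow_of_le_one (by norm_num) (by norm_num) hk
      have e4 : 20 * e0 = 1 / 16000 * (1 / 20 : ℝ) ^ 27 := by
        unfold e0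
        norm_num
      rw [e4]
      linarith
    · have e3 : ((1 / 20 : ℝ)) ^ (k + 1) ≤ (1 / 20) ^ 1 :=
        pow_le_pow_of_le_one (by norm_num) (by norm_num) (by omega)
      rw [pow_one] at e3
      linarith
    · have e3 : ((k + 1 : ℕ) : ℝ) ≤ 27 := by exact_mod_cast hk
      linarith

/-- VI: induction over the degrees of badness. -/
theorem t_VI : S_VI := by
  intro hMK hGM hMEAS hIND hDUAL hRR hMBK hDE hWLD C0 κ θ1 h0 hκ hθ
  obtain ⟨L0, hL0, h⟩ := claim_all hMK hGM hMEAS hIND hDUAL hRR hMBK hDE hWLD h0 hκ hθ 27 le_rfl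
  refine ⟨L0, hL0, fun L1 hL1 => ?_⟩
  obtain ⟨C, hC, hall⟩ := h L1 hL1
  refine ⟨2 * C, by linarith, ?_⟩
  intro N0 M _ W hW Ω _ P _ s2 η N t0 A hs2 hs2' hn ht0 hN hθN hA1 H t w L ht htN hL hLb hgood
  have e4 : 20 * e0 = 1 / 16000 * (1 / 20 : ℝ) ^ 27 := by
    unfold e0
    norm_num
  rw [e4] at hgood
  refine sq_mono (hall N0 M W hW Ω P s2 η N t0 A hs2
    (hs2'.trans (one_div_le_one_div_of_le (by linarith) (by linarith))) hn ht0 hN hθN hA1 H t w L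
    ht htN hL hLb hgood) ?_
  have hL1' : 1 ≤ L := by linarith
  have hlog : 0 ≤ Real.log L := Real.log_nonneg hL1'
  have h1 : (1 : ℝ) ≤ (1 + Real.log L) ^ 2 := one_le_pow₀ (by linarith)
  have h2 : (1 : ℝ) ≤ A * (1 + Real.log L) ^ 2 := by
    calc (1 : ℝ) = 1 * 1 := by norm_num
      _ ≤ A * (1 + Real.log L) ^ 2 := mul_le_mul hA1 h1 (by norm_num) (by linarith)
  have h3 : L ^ (17 - 3 / 4 * ((27 : ℕ) : ℝ)) ≤ 1 :=
    Real.rpow_le_one_of_one_le_of_nonpos hL1' (by norm_num)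
  calc C * (A * (1 + Real.log L) ^ 2 + L ^ (17 - 3 / 4 * ((27 : ℕ) : ℝ)))
      ≤ C * (2 * (A * (1 + Real.log L) ^ 2)) :=
        mul_le_mul_of_nonneg_left (by linarith) (by linarith)
    _ = 2 * C * A * (1 + Real.log L) ^ 2 := by ring

end Pool.Agent.H286.CW
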